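import Pool.Agent.Helper22.TL.Spec

set_option autoImplicit false
set_option linter.unusedSectionVars false

/-! # TL: the bilinear form `bb` -/

namespace TL

open Geo

namespace BBL

variable {B : Type} [Fintype B] [DecidableEq B] (M : CoxeterMatrix B)

lemma coroot_apply (i : B) (v : B → ℝ) : coroot M i v = ∑ j, -2 * cc M i j * v j := by
  simp [coroot, LinearMap.sum_apply]

lemma bb_eq (u v : B → ℝ) : bb M u v = ∑ i, u i * (coroot M i v / 2) := by
  unfold bb
  apply Finset.sum_congr rfl
  intro i _
  rw [coroot_apply, Finset.sum_div, Finset.mul_sum]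
  apply Finset.sum_congr rfl
  intro j _
  ring

lemma bb_symm (u v : B → ℝ) : bb M u v = bb M v u := by
  unfold bb
  rw [Finset.sum_comm]
  apply Finset.sum_congr rfl
  intro i _
  apply Finset.sum_congr rfl
  intro j _
  rw [cc_symm]
  ring

lemma bb_add_right (u v w : B → ℝ) : bb M u (v + w) = bb M u v + bb M u w := by
  simp only [bb_eq, map_add]
  rw [← Finset.sum_add_distrib]
  apply Finset.sum_congr rfl
  intro i _
  ring

lemma bb_smul_right (c : ℝ) (u v : B → ℝ) : bb M u (c • v) = c * bb M u v := by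
  simp only [bb_eq, map_smul, smul_eq_mul]
  rw [Finset.mul_sum]
  apply Finset.sum_congr rfl
  intro i _
  ring

lemma bb_neg_right (u v : B → ℝ) : bb M u (-v) = -bb M u v := by
  have := bb_smul_right M (-1) u v
  rw [neg_one_smul] at this
  rw [this]
  ring

lemma bb_sub_right (u v w : B → ℝ) : bb M u (v - w) = bb M u v - bb M u w := by
  rw [sub_eq_add_neg, bb_add_right, bb_neg_right]
  ring

lemma bb_add_left (u v w : B → ℝ) : bb M (u + v) w = bb M u w + bb M v w := by
  rw [bb_symm, bb_add_right, bb_symm M w u, bb_symm M w v]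

lemma bb_smul_left (c : ℝ) (u v : B → ℝ) : bb M (c • u) v = c * bb M u v := by
  rw [bb_symm, bb_smul_right, bb_symm M v u]

lemma bb_sub_left (u v w : B → ℝ) : bb M (u - v) w = bb M u w - bb M v w := by
  rw [bb_symm, bb_sub_right, bb_symm M w u, bb_symm M w v]

lemma bb_ee_left (i : B) (v : B → ℝ) : bb M (ee i) v = coroot M i v / 2 := by
  rw [bb_eq]
  simp [ee, Pi.single_apply]

lemma bb_ee_ee (i j : B) : bb M (ee i) (ee j) = -cc M i j := by
  rw [bb_ee_left, coroot_ee]
  ring

lemma bb_ee_self (i : B) : bb M (ee i) (ee i) = 1 := by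
  rw [bb_ee_ee, cc_self]
  ring

lemma sg_bb (i : B) (v : B → ℝ) : sg M i v = v - (2 * bb M (ee i) v) • ee i := by
  rw [sg_apply, bb_ee_left]
  congr 2
  ring

lemma bb_sg (i : B) (u v : B → ℝ) : bb M (sg M i u) (sg M i v) = bb M u v := by
  rw [sg_bb, sg_bb, bb_sub_left, bb_sub_right, bb_sub_right, bb_smul_left, bb_smul_left,
    bb_smul_right, bb_smul_right, bb_ee_self, bb_symm M u (ee i)]
  ring

variable {M}
variable {W : Type*} [Group W] (cs : CoxeterSystem M W)

lemma bb_geo (w : W) (u v : B → ℝ) : bb M (geo cs w u) (geo cs w v) = bb M u v := by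
  obtain ⟨ω, rfl⟩ := cs.wordProd_surjective w
  induction ω with
  | nil => simp
  | cons i ω ih =>
    rw [cs.wordProd_cons, map_mul, Module.End.mul_apply, Module.End.mul_apply, geo_simple, bb_sg,
      ih]

/-- reflections -/
lemma geo_conj (w : W) (i : B) (v : B → ℝ) :
    geo cs (w * cs.simple i * w⁻¹) v = v - (2 * bb M (geo cs w (ee i)) v) • geo cs w (ee i) := by
  rw [map_mul, map_mul, Module.End.mul_apply, Module.End.mul_apply, geo_simple, sg_bb, map_sub,
    map_smul, geo_apply_inv]
  congr 3
  rw [← bb_geo cs w (ee i), geo_apply_inv]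

end BBL

end TL
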