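import Pool.Agent.Helper32.TL.TF

set_option autoImplicit false
set_option linter.unusedSectionVars false

/-! # TL: the form of a finite parabolic is positive definite -/

namespace TL

open Geo BBL

theorem pd_thm (hcox : S_COX) : S_PD := by
  intro d G _ ρ hG v hvk hvne
  obtain ⟨M, cs, hcs, hM⟩ := hcox d G ρ hG
  obtain ⟨k, hk, hvk⟩ := hvk
  obtain ⟨k₁, hk₁, hvk₁⟩ := hvne
  rw [Q_eq hG M hM]
  set u : Fin (d + 1) → ℝ := fun i => v i with hu
  set k' : Fin (d + 1) := ⟨k, by omega⟩ with hk'
  set Γ : Subgroup G := Subgroup.closure (ρ '' {j | j ≠ k'}) with hΓ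
  have hfin : Finite Γ := hG.fin k'
  have : Fintype Γ := Fintype.ofFinite Γ
  set L : (Fin (d + 1) → ℝ) → (Fin (d + 1) → ℝ) →ₗ[ℝ] ℝ := fun x =>
    ∑ g : Γ, ∑ j, (geo cs (g : G) x j) • ((LinearMap.proj j : (Fin (d + 1) → ℝ) →ₗ[ℝ] ℝ).comp
      (geo cs (g : G))) with hL
  have hLa : ∀ x y, L x y = ∑ g : Γ, ∑ j, geo cs (g : G) x j * geo cs (g : G) y j := by
    intro x y
    simp [hL, LinearMap.sum_apply]
  have hLs : ∀ x y, L x y = L y x := by
    intro x y
    rw [hLa, hLa]
    apply Finset.sum_congr rfl
    intro g _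
    apply Finset.sum_congr rfl
    intro j _
    ring
  have hLinv : ∀ (s : G) (hs : s ∈ Γ) x y, L (geo cs s x) (geo cs s y) = L x y := by
    intro s hs x y
    rw [hLa, hLa]
    have e := Fintype.sum_equiv (Equiv.mulRight (⟨s, hs⟩ : Γ))
      (fun g : Γ => ∑ j, geo cs (g : G) (geo cs s x) j * geo cs (g : G) (geo cs s y) j)
      (fun g : Γ => ∑ j, geo cs (g : G) x j * geo cs (g : G) y j) (by
        intro g
        simp [Equiv.mulRight, map_mul, Module.End.mul_apply])
    exact e
  have hLpos : ∀ x, x ≠ 0 → 0 < L x x := by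
    intro x hx
    rw [hLa]
    have h1 : ∀ g : Γ, 0 ≤ ∑ j, geo cs (g : G) x j * geo cs (g : G) x j := fun g =>
      Finset.sum_nonneg (fun j _ => mul_self_nonneg _)
    have h2 : 0 < ∑ j, geo cs ((1 : Γ) : G) x j * geo cs ((1 : Γ) : G) x j := by
      simp only [OneMemClass.coe_one, map_one, Module.End.one_apply]
      obtain ⟨j, hj⟩ := Function.ne_iff.1 hx
      exact lt_of_lt_of_le (mul_self_pos.2 hj)
        (Finset.single_le_sum (f := fun j => x j * x j) (fun j _ => mul_self_nonneg _)
          (Finset.mem_univ j))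
    exact lt_of_lt_of_le h2 (Finset.single_le_sum
      (f := fun g : Γ => ∑ j, geo cs (g : G) x j * geo cs (g : G) x j) (fun g _ => h1 g)
      (Finset.mem_univ 1))
  set n : Fin (d + 1) → ℝ := fun i => L (ee i) (ee i) with hn
  have hnpos : ∀ i, 0 < n i := fun i => hLpos _ (ee_ne_zero i)
  -- invariance under a simple reflection
  have hLe : ∀ i, i ≠ k' → ∀ x, L x (ee i) = bb M (ee i) x * n i := by
    intro i hi x
    have hmem : cs.simple i ∈ Γ := by
      rw [hcs]
      exact Subgroup.subset_closure ⟨i, hi, rfl⟩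
    have h1 := hLinv _ hmem x (ee i)
    rw [geo_simple, sg_ee_self, sg_bb, map_neg, hLs, map_sub, map_smul, hLs (ee i) x,
      smul_eq_mul] at h1
    have h2 : L (ee i) (ee i) = n i := rfl
    rw [h2] at h1
    linarith
  -- neighbours
  have hnb : ∀ i j : Fin (d + 1), i ≠ k' → j ≠ k' → (i : ℕ) + 1 = j → n i = n j := by
    intro i j hi hj hij
    have h1 := hLe j hj (ee i)
    have h2 := hLe i hi (ee j)
    rw [hLs, h2, bb_symm M (ee j) (ee i)] at h1
    have hne : bb M (ee i) (ee j) ≠ 0 := by
      rw [bb_ee_ee, neg_ne_zero]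
      apply ne_of_gt
      unfold cc
      have h3 : 3 ≤ M i j := by
        rw [hM]
        exact hG.ord i j hij
      have h3' : (3 : ℝ) ≤ (M i j : ℝ) := by exact_mod_cast h3
      apply Real.cos_pos_of_mem_Ioo
      have hpi := Real.pi_pos
      constructor
      · have : 0 < Real.pi / (M i j : ℝ) := by positivity
        linarith
      · rw [div_lt_div_iff_of_pos_left hpi (by linarith) (by norm_num)]
        linarith
    exact mul_left_cancel₀ hne h1
  have hlow : ∀ m : ℕ, ∀ hm : m < k, n ⟨m, by omega⟩ = n ⟨0, by omega⟩ := by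
    intro m
    induction m with
    | zero => intro _; rfl
    | succ m ih =>
      intro hm
      rw [← ih (by omega)]
      refine (hnb ⟨m, by omega⟩ ⟨m + 1, by omega⟩ ?_ ?_ rfl).symm
      · intro h
        have := congrArg Fin.val h
        simp only [hk'] at this
        omega
      · intro h
        have := congrArg Fin.val h
        simp only [hk'] at this
        omega
  have hhigh : ∀ m : ℕ, ∀ hm : k + 1 + m < d + 1,
      n ⟨k + 1 + m, hm⟩ = n ⟨k + 1, by omega⟩ := by
    intro m
    induction m with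
    | zero => intro _; rfl
    | succ m ih =>
      intro hm
      rw [← ih (by omega)]
      refine (hnb ⟨k + 1 + m, by omega⟩ ⟨k + 1 + (m + 1), by omega⟩ ?_ ?_ ?_).symm
      · intro h
        have := congrArg Fin.val h
        simp only [hk'] at this
        omega
      · intro h
        have := congrArg Fin.val h
        simp only [hk'] at this
        omega
      · simp only
        omega
  -- expansion
  have hexp : ∀ x y, L x y = ∑ i, y i * L x (ee i) := by
    intro x y
    rw [LinearMap.pi_apply_eq_sum_univ (L x) y]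
    apply Finset.sum_congr rfl
    intro i _
    rw [smul_eq_mul]
    congr 2
    funext j
    simp [ee, Pi.single_apply, eq_comm]
  have hexpb : ∀ x, bb M x x = ∑ i, x i * bb M (ee i) x := by
    intro x
    rw [bb_eq]
    apply Finset.sum_congr rfl
    intro i _
    rw [bb_ee_left]
  have hkey : ∀ (x : Fin (d + 1) → ℝ) (N₀ : ℝ), (∀ i, x i ≠ 0 → i ≠ k' ∧ n i = N₀) → x ≠ 0 →
      0 < bb M x x := by
    intro x N₀ hx hx0
    have h1 : L x x = N₀ * bb M x x := by
      rw [hexp, hexpb, Finset.mul_sum]
      apply Finset.sum_congr rfl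
      intro i _
      by_cases hi : x i = 0
      · rw [hi]
        ring
      · obtain ⟨h2, h3⟩ := hx i hi
        rw [hLe i h2, h3]
        ring
    have h2 : 0 < N₀ := by
      obtain ⟨i, hi⟩ := Function.ne_iff.1 hx0
      rw [← (hx i hi).2]
      exact hnpos i
    have h3 := hLpos x hx0
    rw [h1] at h3
    exact (pos_iff_pos_of_mul_pos h3).1 h2
  set u₁ : Fin (d + 1) → ℝ := fun i => if (i : ℕ) < k then u i else 0 with hu₁
  set u₂ : Fin (d + 1) → ℝ := fun i => if k < (i : ℕ) then u i else 0 with hu₂
  have hsum : u = u₁ + u₂ := by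
    funext i
    simp only [Pi.add_apply, hu₁, hu₂]
    rcases lt_trichotomy (i : ℕ) k with h | h | h
    · rw [if_pos h, if_neg (by omega), add_zero]
    · rw [if_neg (by omega), if_neg (by omega)]
      simp only [hu, h, hvk, add_zero]
    · rw [if_neg (by omega), if_pos h, zero_add]
  have hcross : bb M u₁ u₂ = 0 := by
    unfold bb
    apply Finset.sum_eq_zero
    intro i _
    apply Finset.sum_eq_zero
    intro j _
    by_cases hi : (i : ℕ) < k
    · by_cases hj : k < (j : ℕ)
      · have : cc M i j = 0 := by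
          unfold cc
          rw [hM, hG.comm i j (by omega)]
          norm_num
        rw [this]
        ring
      · simp [hu₂, hj]
    · simp [hu₁, hi]
  have h1 : u₁ ≠ 0 → 0 < bb M u₁ u₁ := by
    intro h
    obtain ⟨i₀, hi₀⟩ := Function.ne_iff.1 h
    have hk0 : 0 < k := by
      by_contra hc
      apply hi₀
      simp only [hu₁]
      rw [if_neg (by omega)]
      rfl
    refine hkey u₁ (n ⟨0, by omega⟩) (fun i hi => ?_) h
    have hik : (i : ℕ) < k := by
      by_contra hc
      exact hi (if_neg hc)
    refine ⟨fun h2 => ?_, hlow i hik⟩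
    have := congrArg Fin.val h2
    simp only [hk'] at this
    omega
  have h2 : u₂ ≠ 0 → 0 < bb M u₂ u₂ := by
    intro h
    obtain ⟨i₀, hi₀⟩ := Function.ne_iff.1 h
    have hk0 : k < d := by
      by_contra hc
      apply hi₀
      simp only [hu₂]
      rw [if_neg (by omega)]
      rfl
    refine hkey u₂ (n ⟨k + 1, by omega⟩) (fun i hi => ?_) h
    have hik : k < (i : ℕ) := by
      by_contra hc
      exact hi (if_neg hc)
    refine ⟨fun h2 => ?_, ?_⟩
    · have := congrArg Fin.val h2
      simp only [hk'] at this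
      omega
    · have h3 := hhigh ((i : ℕ) - (k + 1)) (by omega)
      have h4 : (⟨k + 1 + ((i : ℕ) - (k + 1)), by omega⟩ : Fin (d + 1)) = i := by
        apply Fin.ext
        simp only
        omega
      rw [h4] at h3
      exact h3
  have hz : bb M (0 : Fin (d + 1) → ℝ) 0 = 0 := by
    unfold bb
    simp
  rw [hsum, bb_add_left, bb_add_right, bb_add_right, bb_symm M u₂ u₁, hcross]
  by_cases c1 : u₁ = 0
  · by_cases c2 : u₂ = 0
    · exfalso
      apply hvk₁
      have h5 : u ⟨k₁, by omega⟩ = 0 := by
        rw [hsum, c1, c2]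
        simp
      exact h5
    · have := h2 c2
      rw [c1, hz]
      linarith
  · by_cases c2 : u₂ = 0
    · have := h1 c1
      rw [c2, hz]
      linarith
    · have := h1 c1
      have := h2 c2
      linarith

end TL
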