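import Pool.Agent.Helper32.TL.BB

set_option autoImplicit false
set_option linter.unusedSectionVars false

/-! # TL: ping-pong -/

namespace TL

open Geo

namespace PINGL

/-- products of reflections; the head of the list is the last factor -/
def RR {G : Type} [Group G] (r : Fin 3 → G) : List (Fin 3) → G
  | [] => 1
  | k :: l => RR r l * r k

/-- reduced words from lists of Booleans -/
def WW : List Bool → List (Fin 3)
  | [] => []
  | b :: l => ((WW l).headD 0 + (if b then 1 else 2)) :: WW l

/-- the invariant -/
def Iv (y : Fin 3 → ℝ) : List (Fin 3) → Prop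
  | [] => ∀ j, 0 < y j
  | k :: _ => y k < 0 ∧ ∀ j, j ≠ k → -y k < y j

lemma iv_step (c : Fin 3 → Fin 3 → ℝ) (hc : ∀ k l, k ≠ l → c k l ≤ -1) (hs : ∀ k, c k k = 1)
    (y : Fin 3 → ℝ) (l : List (Fin 3)) (k : Fin 3) (hk : ∀ k', l.head? = some k' → k ≠ k')
    (h : Iv y l) : Iv (fun j => y j - 2 * c k j * y k) (k :: l) := by
  have hyk : 0 < y k ∧ ∀ j, j ≠ k → 0 < y j + y k := by
    cases l with
    | nil => exact ⟨h k, fun j _ => add_pos (h j) (h k)⟩
    | cons k' l =>
      have hne : k ≠ k' := hk k' rfl
      obtain ⟨h1, h2⟩ := h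
      have h3 := h2 k hne
      refine ⟨by linarith, fun j hj => ?_⟩
      by_cases hj' : j = k'
      · rw [hj']; linarith
      · have := h2 j hj'
        linarith
  obtain ⟨p1, p2⟩ := hyk
  refine ⟨?_, fun j hj => ?_⟩
  · simp only [hs]
    linarith
  · simp only [hs]
    have h1 := hc k j hj.symm
    have h2 := p2 j hj
    nlinarith

lemma ww_head (b : Bool) (l : List Bool) : ∀ k', (WW l).head? = some k' →
    (WW l).headD 0 + (if b then 1 else 2) ≠ k' := by
  intro k' hk'
  have h1 : (WW l).headD 0 = k' := by
    rw [List.headD_eq_head?_getD, hk']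
    rfl
  rw [h1]
  revert k'
  cases b
  · intro k' _ _
    revert k'
    simp only [Bool.false_eq_true, if_false]
    intro k' _ _ h
    have : ∀ x : Fin 3, x + 2 ≠ x := by decide
    exact this _ h
  · intro k' _ _
    simp only [if_true]
    have : ∀ x : Fin 3, x + 1 ≠ x := by decide
    exact this _

lemma growth (C e L : ℕ) : ∃ m : ℕ, C * (m * L + 1) ^ e < 2 ^ m := by
  have h1 := isLittleO_pow_const_const_pow_of_one_lt (R := ℝ) e (r := 2) (by norm_num)
  have h2 := h1.def (c := 1 / ((C + 1) * ((L : ℝ) + 1) ^ e)) (by positivity)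
  obtain ⟨m, hm, hm1⟩ := (h2.and (Filter.eventually_ge_atTop 1)).exists
  refine ⟨m, ?_⟩
  have hm1' : (1 : ℝ) ≤ m := by exact_mod_cast hm1
  rw [Real.norm_of_nonneg (by positivity), Real.norm_of_nonneg (by positivity)] at hm
  have h3 : ((C : ℝ) + 1) * ((L : ℝ) + 1) ^ e * (m : ℝ) ^ e ≤ 2 ^ m := by
    have h4 : (0 : ℝ) < (C + 1) * ((L : ℝ) + 1) ^ e := by positivity
    rw [div_mul_eq_mul_div, one_mul, le_div_iff₀ h4] at hm
    linarith
  have h5 : ((m : ℝ) * L + 1) ^ e ≤ ((L : ℝ) + 1) ^ e * (m : ℝ) ^ e := by
    rw [← mul_pow]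
    apply pow_le_pow_left₀ (by positivity)
    nlinarith [Nat.cast_nonneg (α := ℝ) L]
  have h6 : (C : ℝ) * ((m : ℝ) * L + 1) ^ e < 2 ^ m := by
    have h7 : 0 < ((m : ℝ) * L + 1) ^ e := by positivity
    have h8 : (C : ℝ) * ((m : ℝ) * L + 1) ^ e < ((C : ℝ) + 1) * ((m : ℝ) * L + 1) ^ e := by
      nlinarith
    have h9 : ((C : ℝ) + 1) * ((m : ℝ) * L + 1) ^ e ≤
        ((C : ℝ) + 1) * (((L : ℝ) + 1) ^ e * (m : ℝ) ^ e) := by
      apply mul_le_mul_of_nonneg_left h5
      positivity
    linarith
  exact_mod_cast h6

end PINGL

open PINGL BBL in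
theorem ping_thm : S_PING := by
  intro n G _ M cs ω ι hneg hpos hPG
  set w : Fin 3 → G := fun k => cs.wordProd (ω k) with hw
  set b : Fin 3 → (Fin n → ℝ) := fun k => geo cs (w k) (ee (ι k)) with hb
  set r : Fin 3 → G := fun k => w k * cs.simple (ι k) * (w k)⁻¹ with hr
  set c : Fin 3 → Fin 3 → ℝ := fun k l => bb M (b k) (b l) with hc
  have hcs : ∀ k, c k k = 1 := by
    intro k
    simp only [hc, hb]
    rw [bb_geo, bb_ee_self]
  -- the coordinates
  set y : List (Fin 3) → Fin 3 → ℝ := fun l j => ∑ i, geo cs (RR r l) (b j) i with hy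
  have hystep : ∀ l k j, y (k :: l) j = y l j - 2 * c k j * y l k := by
    intro l k j
    simp only [hy, RR, map_mul, Module.End.mul_apply]
    have h1 : geo cs (r k) (b j) = b j - (2 * bb M (b k) (b j)) • b k := geo_conj cs (w k) (ι k) (b j)
    rw [h1, map_sub, map_smul]
    simp only [Pi.sub_apply, Pi.smul_apply, smul_eq_mul]
    rw [Finset.sum_sub_distrib, ← Finset.mul_sum]
  have hIv : ∀ l : List Bool, Iv (y (WW l)) (WW l) := by
    intro l
    induction l with
    | nil =>
      intro j
      simp only [hy, WW, RR, map_one, Module.End.one_apply]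
      exact hpos j
    | cons a l ih =>
      have h1 := iv_step c (fun k l hkl => hneg k l hkl) hcs (y (WW l)) (WW l)
        ((WW l).headD 0 + (if a then 1 else 2)) (ww_head a l) ih
      have h2 : (fun j => y (WW l) j - 2 * c ((WW l).headD 0 + (if a then 1 else 2)) j *
          y (WW l) ((WW l).headD 0 + (if a then 1 else 2))) = y (WW (a :: l)) := by
        funext j
        exact (hystep _ _ _).symm
      rw [h2] at h1
      exact h1
  -- injectivity
  have hinj : ∀ l l' : List Bool, l.length = l'.length → RR r (WW l) = RR r (WW l') → l = l' := by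
    intro l
    induction l with
    | nil =>
      intro l' hl _
      exact (List.length_eq_zero_iff.1 hl.symm).symm
    | cons a l ih =>
      intro l' hl h
      cases l' with
      | nil => simp at hl
      | cons a' l' =>
        have hl' : l.length = l'.length := by simpa using hl
        have i1 := hIv (a :: l)
        have i2 := hIv (a' :: l')
        have hyy : y (WW (a :: l)) = y (WW (a' :: l')) := by
          simp only [hy, h]
        rw [← hyy] at i2
        simp only [WW] at i1 i2 h
        have hk : (WW l).headD 0 + (if a then 1 else 2) = (WW l').headD 0 + (if a' then 1 else 2) := by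
          by_contra hne
          have j1 := i1.1
          have j2 := i2.1
          have j3 := i1.2 _ (Ne.symm hne)
          linarith
        simp only [RR] at h
        rw [hk] at h
        have h' := mul_right_cancel h
        have hll := ih l' hl' h'
        subst hll
        have hk2 := add_left_cancel hk
        have : a = a' := by
          cases a <;> cases a' <;> simp_all
        rw [this]
  -- growth
  obtain ⟨C, e, hCe⟩ := hPG
  set L : ℕ := ∑ k, (2 * (ω k).length + 1) with hL
  have hword : ∀ l : List (Fin 3), ∃ v : List (Fin n), v.length ≤ l.length * L ∧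
      (v.map cs.simple).prod = RR r l := by
    intro l
    induction l with
    | nil => exact ⟨[], by simp, by simp [RR]⟩
    | cons k l ih =>
      obtain ⟨v, hv1, hv2⟩ := ih
      refine ⟨v ++ (ω k ++ [ι k] ++ (ω k).reverse), ?_, ?_⟩
      · have hk : 2 * (ω k).length + 1 ≤ L := by
          rw [hL]
          exact Finset.single_le_sum (f := fun k => 2 * (ω k).length + 1)
            (fun _ _ => Nat.zero_le _) (Finset.mem_univ k)
        simp only [List.length_append, List.length_reverse, List.length_cons, List.length_nil]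
        have : (l.length + 1) * L = l.length * L + L := by ring
        omega
      · rw [List.map_append, List.prod_append, hv2]
        simp only [RR]
        congr 1
        have h1 : (List.map cs.simple (ω k ++ [ι k] ++ (ω k).reverse)).prod =
          cs.wordProd (ω k ++ [ι k] ++ (ω k).reverse) := rfl
        rw [h1, cs.wordProd_append, cs.wordProd_append, cs.wordProd_reverse, cs.wordProd_singleton]
  have hWlen : ∀ l : List Bool, (WW l).length = l.length := by
    intro l
    induction l with
    | nil => rfl
    | cons a l ih => simp [WW, ih]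
  obtain ⟨m, hm⟩ := growth C e L
  have h1 := hCe (m * L)
  have hfin : {g : G | ∃ l : List (Fin n), l.length ≤ m * L ∧ (l.map cs.simple).prod = g}.Finite := by
    have : {g : G | ∃ l : List (Fin n), l.length ≤ m * L ∧ (l.map cs.simple).prod = g} =
        (fun l : List (Fin n) => (l.map cs.simple).prod) '' {l | l.length ≤ m * L} := by
      ext g
      simp
    rw [this]
    exact (List.finite_length_le (Fin n) (m * L)).image _
  set F : (Fin m → Bool) → G := fun f => RR r (WW (List.ofFn f)) with hF
  have hFinj : Function.Injective F := by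
    intro f f' hff
    exact List.ofFn_injective (hinj _ _ (by simp) hff)
  have hsub : Set.range F ⊆
      {g : G | ∃ l : List (Fin n), l.length ≤ m * L ∧ (l.map cs.simple).prod = g} := by
    rintro g ⟨f, rfl⟩
    obtain ⟨v, hv1, hv2⟩ := hword (WW (List.ofFn f))
    rw [hWlen, List.length_ofFn] at hv1
    exact ⟨v, hv1, hv2⟩
  have h2 := Set.ncard_le_ncard hsub hfin
  have h3 : (Set.range F).ncard = 2 ^ m := by
    rw [← Set.image_univ, Set.ncard_image_of_injective _ hFinj, Set.ncard_univ]
    simp
  omega

end TL
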