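import Pool.Agent.Helper32.TL.BB

set_option autoImplicit false
set_option linter.unusedSectionVars false

/-! # TL: the form of an infinite Coxeter group is not positive definite -/

namespace TL

open Geo

namespace BBL

/-- the quadratic form of the symbol -/
lemma Q_eq {d : ℕ} {G : Type} [Group G] {ρ : Fin (d + 1) → G} (hG : Good d G ρ)
    (M : CoxeterMatrix (Fin (d + 1))) (hM : ∀ i j, M i j = orderOf (ρ i * ρ j)) (v : ℕ → ℝ) :
    Q d (pp ρ) v = bb M (fun i : Fin (d + 1) => v i) (fun i : Fin (d + 1) => v i) := by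
  set c : ℕ → ℝ := fun i => Real.cos (Real.pi / pp ρ i) with hc
  set T : ℕ → ℕ → ℝ := fun i j => (if i = j then v i ^ 2 else 0) -
    (if i + 1 = j then c i * v i * v j else 0) - (if j + 1 = i then c j * v j * v i else 0) with hT
  have hcc : ∀ i j : Fin (d + 1), (i : ℕ) + 1 = j → cc M i j = c i := by
    intro i j hij
    simp only [hc, cc]
    have hi : (i : ℕ) < d := by omega
    have h1 : pp ρ (i : ℕ) = M i j := by
      unfold pp
      rw [dif_pos hi, hM]
      congr 2
      congr 1
      apply Fin.ext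
      exact hij
    rw [h1]
  have hfar : ∀ i j : Fin (d + 1), (i : ℕ) + 2 ≤ j → cc M i j = 0 := by
    intro i j hij
    unfold cc
    rw [hM, hG.comm i j hij]
    norm_num
  have hterm : ∀ i j : Fin (d + 1), -cc M i j * v i * v j = T i j := by
    intro i j
    simp only [hT]
    rcases lt_trichotomy (i : ℕ) j with h | h | h
    · rw [if_neg (by omega), if_neg (by omega : ¬ (j : ℕ) + 1 = i)]
      by_cases h1 : (i : ℕ) + 1 = j
      · rw [if_pos h1, hcc i j h1]
        ring
      · rw [if_neg h1, hfar i j (by omega)]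
        ring
    · have hij : i = j := Fin.ext h
      subst hij
      rw [if_pos rfl, if_neg (by omega), cc_self]
      ring
    · rw [if_neg (by omega), if_neg (by omega : ¬ (i : ℕ) + 1 = j), cc_symm]
      by_cases h1 : (j : ℕ) + 1 = i
      · rw [if_pos h1, hcc j i h1]
        ring
      · rw [if_neg h1, hfar j i (by omega)]
        ring
  have hsum : ∀ f : ℕ → ℕ → ℝ, ∑ i ∈ Finset.range (d + 1), ∑ j ∈ Finset.range (d + 1),
      (if i + 1 = j then f i j else 0) = ∑ i ∈ Finset.range d, f i (i + 1) := by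
    intro f
    rw [Finset.sum_range_succ]
    have h1 : ∑ j ∈ Finset.range (d + 1), (if d + 1 = j then f d j else 0) = 0 := by
      apply Finset.sum_eq_zero
      intro j hj
      rw [Finset.mem_range] at hj
      rw [if_neg (by omega)]
    rw [h1, add_zero]
    apply Finset.sum_congr rfl
    intro i hi
    rw [Finset.mem_range] at hi
    rw [Finset.sum_ite_eq, if_pos (Finset.mem_range.2 (by omega))]
  have hbb : bb M (fun i : Fin (d + 1) => v i) (fun i : Fin (d + 1) => v i) =
      ∑ i ∈ Finset.range (d + 1), ∑ j ∈ Finset.range (d + 1), T i j := by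
    unfold bb
    rw [Finset.sum_range]
    apply Finset.sum_congr rfl
    intro i _
    rw [Finset.sum_range]
    apply Finset.sum_congr rfl
    intro j _
    exact hterm i j
  rw [hbb]
  simp only [hT, Finset.sum_sub_distrib]
  rw [hsum (fun i j => c i * v i * v j)]
  have h2 : ∑ i ∈ Finset.range (d + 1), ∑ j ∈ Finset.range (d + 1),
      (if j + 1 = i then c j * v j * v i else 0) = ∑ i ∈ Finset.range d, c i * v i * v (i + 1) := by
    rw [Finset.sum_comm]
    exact hsum (fun i j => c i * v i * v j)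
  rw [h2]
  have h3 : ∑ i ∈ Finset.range (d + 1), ∑ j ∈ Finset.range (d + 1),
      (if i = j then v i ^ 2 else 0) = ∑ i ∈ Finset.range (d + 1), v i ^ 2 := by
    apply Finset.sum_congr rfl
    intro i hi
    rw [Finset.sum_ite_eq, if_pos hi]
  rw [h3]
  unfold Q
  ring

lemma bb_cont {B : Type} [Fintype B] [DecidableEq B] (M : CoxeterMatrix B) :
    Continuous (fun u : B → ℝ => bb M u u) := by
  unfold bb
  fun_prop

/-- `N u = bb u u` is comparable with the square of the norm -/
lemma bb_bounds {n : ℕ} (M : CoxeterMatrix (Fin (n + 1)))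
    (h : ∀ u : Fin (n + 1) → ℝ, u ≠ 0 → 0 < bb M u u) : ∃ c C : ℝ, 0 < c ∧ 0 < C ∧
    ∀ u : Fin (n + 1) → ℝ, c * ‖u‖ ^ 2 ≤ bb M u u ∧ bb M u u ≤ C * ‖u‖ ^ 2 := by
  have hK : IsCompact (Metric.sphere (0 : Fin (n + 1) → ℝ) 1) := isCompact_sphere 0 1
  have hne : (Metric.sphere (0 : Fin (n + 1) → ℝ) 1).Nonempty := NormedSpace.sphere_nonempty.2 (by norm_num)
  obtain ⟨a, ha, hamin⟩ := hK.exists_isMinOn hne (bb_cont M).continuousOn
  obtain ⟨b, hb, hbmax⟩ := hK.exists_isMaxOn hne (bb_cont M).continuousOn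
  have hane : a ≠ 0 := by
    rintro rfl
    simp at ha
  have hbne : b ≠ 0 := by
    rintro rfl
    simp at hb
  refine ⟨bb M a a, bb M b b, h a hane, h b hbne, fun u => ?_⟩
  by_cases hu : u = 0
  · subst hu
    have : bb M (0 : Fin (n + 1) → ℝ) 0 = 0 := by
      unfold bb
      simp
    rw [this]
    simp
  · have hn : 0 < ‖u‖ := norm_pos_iff.2 hu
    have hsph : (‖u‖⁻¹ • u) ∈ Metric.sphere (0 : Fin (n + 1) → ℝ) 1 := by
      rw [mem_sphere_zero_iff_norm, norm_smul, norm_inv, norm_norm, inv_mul_cancel₀ hn.ne']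
    have e1 : bb M (‖u‖⁻¹ • u) (‖u‖⁻¹ • u) = bb M u u / ‖u‖ ^ 2 := by
      rw [bb_smul_left, bb_smul_right]
      field_simp
    have h1 := isMinOn_iff.1 hamin _ hsph
    have h2 := isMaxOn_iff.1 hbmax _ hsph
    rw [e1] at h1 h2
    have hn2 : 0 < ‖u‖ ^ 2 := by positivity
    exact ⟨(le_div_iff₀ hn2).1 h1, (div_le_iff₀ hn2).1 h2⟩

end BBL

open BBL in
theorem tf_thm (hcox : S_COX) : S_TF := by
  intro d G _ ρ hG
  by_contra hcon
  push Not at hcon
  obtain ⟨M, cs, hcs, hM⟩ := hcox d G ρ hG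
  have hpd : ∀ u : Fin (d + 1) → ℝ, u ≠ 0 → 0 < bb M u u := by
    intro u hu
    set v : ℕ → ℝ := fun k => if h : k < d + 1 then u ⟨k, h⟩ else 0 with hv
    have hvu : (fun i : Fin (d + 1) => v i) = u := by
      funext i
      simp only [hv]
      rw [dif_pos i.2]
    have h1 := hcon v ?_
    · rw [Q_eq hG M hM, hvu] at h1
      exact h1
    · by_contra hz
      push Not at hz
      apply hu
      funext i
      have h2 := hz i (by omega)
      rw [← hvu]
      exact h2
  obtain ⟨c, C, hc, hC, hbd⟩ := bb_bounds M hpd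
  set Φ : G → (Fin (d + 1) → Fin (d + 1) → ℝ) := fun g i => geo cs g (ee i) with hΦ
  -- bounded
  have hbound : ∀ g, ‖Φ g‖ ≤ √(1 / c) := by
    intro g
    rw [pi_norm_le_iff_of_nonneg (Real.sqrt_nonneg _)]
    intro i
    apply Real.le_sqrt_of_sq_le
    have h1 := (hbd (geo cs g (ee i))).1
    rw [bb_geo, bb_ee_self] at h1
    rw [le_div_iff₀ hc]
    simp only [hΦ]
    linarith
  -- separated
  have hsep : ∀ g h : G, g ≠ h → √(c / C) ≤ ‖Φ g - Φ h‖ := by
    intro g h hgh
    have hne : h⁻¹ * g ≠ 1 := by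
      intro h1
      apply hgh
      have := congrArg (fun x => h * x) h1
      simpa using this
    obtain ⟨i, hi⟩ : ∃ i, ¬ 0 ≤ geo cs (h⁻¹ * g) (ee i) := by
      by_contra hcon2
      push Not at hcon2
      exact hne (eq_one_of_geo cs _ hcon2)
    have hneg : geo cs (h⁻¹ * g) (ee i) ≤ 0 := by
      rcases cs.length_mul_simple (h⁻¹ * g) i with h1 | h1
      · exact absurd (geo_nonneg cs _ i (by omega)) hi
      · exact geo_nonpos cs _ i (by omega)
    have hcoord : 1 ≤ ‖geo cs (h⁻¹ * g) (ee i) - ee i‖ := by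
      have h1 := norm_le_pi_norm (geo cs (h⁻¹ * g) (ee i) - ee i) i
      have h2 := hneg i
      have h3 : (ee i : Fin (d + 1) → ℝ) i = 1 := by simp [ee]
      rw [Pi.sub_apply, h3, Real.norm_eq_abs] at h1
      simp only [Pi.zero_apply] at h2
      rw [abs_of_nonpos (by linarith)] at h1
      linarith
    have hN : c ≤ bb M (geo cs (h⁻¹ * g) (ee i) - ee i) (geo cs (h⁻¹ * g) (ee i) - ee i) := by
      have h1 := (hbd (geo cs (h⁻¹ * g) (ee i) - ee i)).1
      have h2 : (1 : ℝ) ≤ ‖geo cs (h⁻¹ * g) (ee i) - ee i‖ ^ 2 := by nlinarith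
      nlinarith
    have hdiff : Φ g i - Φ h i = geo cs h (geo cs (h⁻¹ * g) (ee i) - ee i) := by
      simp only [hΦ]
      rw [map_sub, ← Module.End.mul_apply, ← map_mul, mul_inv_cancel_left]
    have h3 := (hbd (Φ g i - Φ h i)).2
    rw [hdiff, bb_geo, ← hdiff] at h3
    have h4 : √(c / C) ≤ ‖Φ g i - Φ h i‖ := by
      rw [Real.sqrt_le_left (norm_nonneg _), div_le_iff₀ hC]
      linarith
    exact h4.trans (norm_le_pi_norm (Φ g - Φ h) i)
  have hε : 0 < √(c / C) := Real.sqrt_pos.2 (by positivity)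
  have hfin : Finite G := by
    obtain ⟨t, -, htfin, ht⟩ := (isCompact_closedBall
      (0 : Fin (d + 1) → Fin (d + 1) → ℝ) (√(1 / c))).finite_cover_balls
      (e := √(c / C) / 2) (by positivity)
    have hch : ∀ g : G, ∃ x ∈ t, dist (Φ g) x < √(c / C) / 2 := by
      intro g
      have h1 : Φ g ∈ Metric.closedBall (0 : Fin (d + 1) → Fin (d + 1) → ℝ) (√(1 / c)) := by
        rw [mem_closedBall_zero_iff]
        exact hbound g
      have h2 := ht h1
      simp only [Set.mem_iUnion, Metric.mem_ball, exists_prop] at h2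
      exact h2
    choose φ hφ hφ' using hch
    have : Finite t := htfin
    refine Finite.of_injective (fun g => (⟨φ g, hφ g⟩ : t)) ?_
    intro g h hgh
    by_contra hne
    have h1 : φ g = φ h := congrArg Subtype.val hgh
    have h2 := hφ' g
    have h3 := hφ' h
    rw [← h1] at h3
    have h4 := hsep g h hne
    rw [← dist_eq_norm] at h4
    have h5 := dist_triangle_right (Φ g) (Φ h) (φ g)
    linarith
  have := hG.inf
  exact not_finite G

end TL
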